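import Mathlib

set_option autoImplicit false

/-!
# No equivariant projection of `Lip₀(X)` onto the dual for `X = ℓ_p(Y)`, `1 < p < ∞`

The mathematical proof is by helper276.
-/

open scoped ENNReal NNReal

namespace Pool.Agent.R514.SP

/-- The real Lipschitz functions on a normed space which vanish at `0`. -/
def Lip0 (X : Type*) [NormedAddCommGroup X] : Submodule ℝ (X → ℝ) where
  carrier := {f | f 0 = 0 ∧ ∃ K : ℝ≥0, LipschitzWith K f}
  zero_mem' := ⟨rfl, 0, LipschitzWith.const 0⟩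
  add_mem' := by
    rintro f g ⟨h1, K, hK⟩ ⟨h2, L, hL⟩
    exact ⟨by simp [h1, h2], K + L, hK.add hL⟩
  smul_mem' := by
    rintro c f ⟨h1, K, hK⟩
    refine ⟨by simp [h1], ‖c‖₊ * K, ?_⟩
    have h : LipschitzWith ‖c‖₊ (fun t : ℝ => c * t) := by
      apply LipschitzWith.of_dist_le_mul
      intro a b
      rw [Real.dist_eq, ← mul_sub, abs_mul, Real.dist_eq]
      rfl
    exact h.comp hK

section real

lemma bern {q a b : ℝ} (hq : 1 ≤ q) (hb : 0 ≤ b) (hab : b ≤ a) : a * (a ^ q - b ^ q) ≤ q * a ^ q * (a - b) := by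
  rcases hb.trans hab |>.eq_or_lt with h0 | h0
  · have hb0 : b = 0 := by linarith
    rw [← h0, hb0]
    simp
  · have h1 := one_add_mul_self_le_rpow_one_add (s := b / a - 1) (by
      have : 0 ≤ b / a := by positivity
      linarith) hq
    rw [add_sub_cancel, Real.div_rpow hb h0.le] at h1
    have hap : 0 < a ^ q := Real.rpow_pos_of_pos h0 q
    have h2 := mul_le_mul_of_nonneg_left h1 (by positivity : 0 ≤ a * a ^ q)
    have e1 : a * a ^ q * (b ^ q / a ^ q) = a * b ^ q := by field_simp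
    have e2 : a * a ^ q * (1 + q * (b / a - 1)) = a * a ^ q + q * a ^ q * (b - a) := by
      field_simp
    rw [e1, e2] at h2
    nlinarith

lemma pow_lip {q a b : ℝ} (hq : 1 ≤ q) (ha : 0 ≤ a) (hb : 0 ≤ b) (ha1 : a ≤ 1) (hb1 : b ≤ 1) :
    |a ^ q - b ^ q| ≤ q * |a - b| := by
  wlog hab : b ≤ a generalizing a b
  · have := this hb ha hb1 ha1 (le_of_not_ge hab)
    rwa [abs_sub_comm, abs_sub_comm a b]
  rw [abs_of_nonneg (by linarith : 0 ≤ a - b),
    abs_of_nonneg (sub_nonneg.2 (Real.rpow_le_rpow hb hab (by linarith)))]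
  rcases ha.eq_or_lt with h0 | h0
  · have hb0 : b = 0 := by linarith
    rw [← h0, hb0]
    simp
  · have h1 := bern hq hb hab
    have h2 : a ^ q ≤ a := by
      calc a ^ q ≤ a ^ (1 : ℝ) := Real.rpow_le_rpow_of_exponent_ge h0 ha1 hq
        _ = a := Real.rpow_one a
    have h3 : q * a ^ q * (a - b) ≤ q * a * (a - b) := by
      have : 0 ≤ q * (a - b) := mul_nonneg (by linarith) (by linarith)
      nlinarith
    have h4 : a * (a ^ q - b ^ q) ≤ a * (q * (a - b)) := by linarith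
    exact le_of_mul_le_mul_left h4 h0

lemma pow_lip2 {q s t : ℝ} (hq : 1 ≤ q) (hs : 0 ≤ s) (ht : 0 ≤ t) :
    t * |s ^ q - t ^ q| ≤ q * |s - t| * (s ^ q + t ^ q) := by
  have hsq : 0 ≤ s ^ q := Real.rpow_nonneg hs q
  have htq : 0 ≤ t ^ q := Real.rpow_nonneg ht q
  rcases le_total t s with h | h
  · rw [abs_of_nonneg (sub_nonneg.2 (Real.rpow_le_rpow ht h (by linarith))), abs_of_nonneg (by linarith : 0 ≤ s - t)]
    have h1 := bern hq ht h
    have h2 : 0 ≤ s ^ q - t ^ q := sub_nonneg.2 (Real.rpow_le_rpow ht h (by linarith))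
    have h3 : 0 ≤ q * (s - t) * t ^ q := mul_nonneg (mul_nonneg (by linarith) (by linarith)) htq
    nlinarith
  · rw [abs_sub_comm, abs_of_nonneg (sub_nonneg.2 (Real.rpow_le_rpow hs h (by linarith))), abs_sub_comm,
      abs_of_nonneg (by linarith : 0 ≤ t - s)]
    have h1 := bern hq hs h
    have h3 : 0 ≤ q * (t - s) * s ^ q := mul_nonneg (mul_nonneg (by linarith) (by linarith)) hsq
    nlinarith

end real

section hom

variable {X : Type*} [NormedAddCommGroup X] [NormedSpace ℝ X]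

/-- a positively homogeneous function which is bounded and Lipschitz on the unit sphere is Lipschitz -/
lemma lip_hom (F : X → ℝ) (C : ℝ) (hC : 0 ≤ C) (hhom : ∀ c : ℝ, 0 < c → ∀ x, F (c • x) = c * F x)
    (hs : ∀ u v, ‖u‖ = 1 → ‖v‖ = 1 → |F u - F v| ≤ C * ‖u - v‖) (hb : ∀ u, ‖u‖ = 1 → |F u| ≤ C) :
    F ∈ Lip0 X := by
  have h0 : F 0 = 0 := by
    have := hhom 2 (by norm_num) 0
    rw [smul_zero] at this
    linarith
  have hsz : ∀ x : X, x ≠ 0 → ‖(‖x‖⁻¹ • x : X)‖ = 1 := fun x hx => by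
    rw [norm_smul, norm_inv, norm_norm, inv_mul_cancel₀ (norm_ne_zero_iff.2 hx)]
  have hF : ∀ x : X, x ≠ 0 → F x = ‖x‖ * F (‖x‖⁻¹ • x) := fun x hx => by
    rw [← hhom _ (norm_pos_iff.2 hx), smul_smul, mul_inv_cancel₀ (norm_ne_zero_iff.2 hx), one_smul]
  have hbd : ∀ x : X, |F x| ≤ C * ‖x‖ := fun x => by
    by_cases hx : x = 0
    · rw [hx, h0]; simp
    · rw [hF x hx, abs_mul, abs_norm, mul_comm]
      exact mul_le_mul_of_nonneg_right (hb _ (hsz x hx)) (norm_nonneg _)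
  refine ⟨h0, ⟨3 * C, by positivity⟩, ?_⟩
  apply LipschitzWith.of_dist_le_mul
  intro x y
  rw [Real.dist_eq, dist_eq_norm]
  show |F x - F y| ≤ 3 * C * ‖x - y‖
  by_cases hx : x = 0
  · rw [hx, h0, zero_sub, abs_neg, zero_sub, norm_neg]
    have := hbd y
    have := mul_nonneg hC (norm_nonneg y)
    linarith
  by_cases hy : y = 0
  · rw [hy, h0, sub_zero, sub_zero]
    have := hbd x
    have := mul_nonneg hC (norm_nonneg x)
    linarith
  set u := ‖x‖⁻¹ • x with hu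
  set v := ‖y‖⁻¹ • y with hv
  have hxu : ‖x‖ • u = x := by
    rw [hu, smul_smul, mul_inv_cancel₀ (norm_ne_zero_iff.2 hx), one_smul]
  have hyv : ‖y‖ • v = y := by
    rw [hv, smul_smul, mul_inv_cancel₀ (norm_ne_zero_iff.2 hy), one_smul]
  have e : F x - F y = (‖x‖ - ‖y‖) * F u + ‖y‖ * (F u - F v) := by
    rw [hF x hx, hF y hy, ← hu, ← hv]; ring
  have h1 : |(‖x‖ - ‖y‖) * F u| ≤ ‖x - y‖ * C := by
    rw [abs_mul]
    exact mul_le_mul (abs_norm_sub_norm_le x y) (hb u (hsz x hx)) (abs_nonneg _) (norm_nonneg _)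
  have h2 : ‖y‖ * ‖u - v‖ ≤ 2 * ‖x - y‖ := by
    have e2 : ‖y‖ * ‖u - v‖ = ‖(‖y‖ - ‖x‖) • u + (x - y)‖ := by
      rw [← norm_norm y, ← norm_smul, norm_norm]
      congr 1
      rw [smul_sub, hyv, sub_smul, hxu]
      abel
    rw [e2]
    refine (norm_add_le _ _).trans ?_
    rw [norm_smul, hsz x hx, mul_one, Real.norm_eq_abs]
    have := abs_norm_sub_norm_le y x
    rw [norm_sub_rev y x] at this
    linarith
  have h3 : |‖y‖ * (F u - F v)| ≤ C * (2 * ‖x - y‖) := by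
    rw [abs_mul, abs_norm]
    calc ‖y‖ * |F u - F v| ≤ ‖y‖ * (C * ‖u - v‖) :=
          mul_le_mul_of_nonneg_left (hs u v (hsz x hx) (hsz y hy)) (norm_nonneg _)
      _ = C * (‖y‖ * ‖u - v‖) := by ring
      _ ≤ _ := mul_le_mul_of_nonneg_left h2 hC
  rw [e]
  refine (abs_add_le _ _).trans ?_
  linarith

end hom

end Pool.Agent.R514.SP
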