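import Mathlib
import Pool.Agent.R514.SP.Core

set_option autoImplicit false

/-! Definitions for the equivariant dual lifting property. -/

namespace Pool.Agent.R514.SP

variable (X : Type) [NormedAddCommGroup X] [NormedSpace ℝ X]

/-- The linear maps (bounded or not) from `Lip₀(X)` to the dual space of `X`. -/
abbrev MapsToDual : Type := Lip0 X →ₗ[ℝ] (X →L[ℝ] ℝ)

variable {X}

/-- `P` is a projection onto the dual space: `P φ = φ` for every continuous linear functional `φ`. -/
def IsProjection (P : MapsToDual X) : Prop := ∀ (φ : X →L[ℝ] ℝ) (h : ⇑φ ∈ Lip0 X), P ⟨φ, h⟩ = φ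

/-- `P` commutes with the composition with the linear automorphism `g`: `P (f ∘ g) = (P f) ∘ g`. -/
def Commutes (P : MapsToDual X) (g : X ≃L[ℝ] X) : Prop :=
  ∀ f f' : Lip0 X, (∀ x, f'.1 x = f.1 (g x)) → ∀ x, P f' x = P f (g x)

/-- `P` is bounded for the Lipschitz norm. -/
def IsBounded (P : MapsToDual X) : Prop :=
  ∃ C : ℝ, ∀ (f : Lip0 X) (K : NNReal), LipschitzWith K f.1 → ‖P f‖ ≤ C * K

end Pool.Agent.R514.SP
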