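import Mathlib
import Pool.Agent.R514.SP.Core

set_option autoImplicit false
set_option linter.unusedSectionVars false

open scoped ENNReal NNReal

namespace Pool.Agent.R514.SP

variable {I : Type} {Y : Type} [NormedAddCommGroup Y] [NormedSpace ℝ Y] {p : ℝ≥0∞} [Fact (1 ≤ p)]

/-- the space `ℓ_p(I; Y)` -/
abbrev XX (I Y : Type) [NormedAddCommGroup Y] (p : ℝ≥0∞) : Type := lp (fun _ : I => Y) p

lemma q1 (hp : p ≠ ∞) : 1 ≤ p.toReal := by
  have h : 1 ≤ p := Fact.out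
  rw [← ENNReal.toReal_one]
  exact ENNReal.toReal_mono hp h

lemma q0 (hp : p ≠ ∞) : 0 < p.toReal := lt_of_lt_of_le one_pos (q1 hp)

lemma hsn (hp : p ≠ ∞) (x : XX I Y p) : HasSum (fun k => ‖x k‖ ^ p.toReal) (‖x‖ ^ p.toReal) :=
  lp.hasSum_norm (q0 hp) x

/-- the restriction of `x` to the coordinates in `K` -/
noncomputable def mask (hp : p ≠ ∞) (K : Set I) : XX I Y p →ₗ[ℝ] XX I Y p where
  toFun x := ⟨fun k => K.indicator (⇑x) k, by
    apply memℓp_gen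
    refine Summable.of_nonneg_of_le (fun k => Real.rpow_nonneg (norm_nonneg _) _) (fun k => ?_) (hsn hp x).summable
    refine Real.rpow_le_rpow (norm_nonneg _) ?_ (q0 hp).le
    by_cases hk : k ∈ K
    · rw [Set.indicator_of_mem hk]
    · rw [Set.indicator_of_notMem hk, norm_zero]; exact norm_nonneg _⟩
  map_add' x y := by
    apply lp.ext
    funext k
    show K.indicator (⇑(x + y)) k = K.indicator (⇑x) k + K.indicator (⇑y) k
    by_cases hk : k ∈ K
    · rw [Set.indicator_of_mem hk, Set.indicator_of_mem hk, Set.indicator_of_mem hk]; rfl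
    · rw [Set.indicator_of_notMem hk, Set.indicator_of_notMem hk, Set.indicator_of_notMem hk, add_zero]
  map_smul' c x := by
    apply lp.ext
    funext k
    show K.indicator (⇑(c • x)) k = c • K.indicator (⇑x) k
    by_cases hk : k ∈ K
    · rw [Set.indicator_of_mem hk, Set.indicator_of_mem hk]; rfl
    · rw [Set.indicator_of_notMem hk, Set.indicator_of_notMem hk, smul_zero]

lemma mask_apply (hp : p ≠ ∞) (K : Set I) (x : XX I Y p) (k : I) : mask hp K x k = K.indicator (⇑x) k := rfl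

lemma mask_norm_pow (hp : p ≠ ∞) (K : Set I) (x : XX I Y p) :
    ‖mask hp K x‖ ^ p.toReal = ∑' k, K.indicator (fun k => ‖x k‖ ^ p.toReal) k := by
  rw [lp.norm_rpow_eq_tsum (q0 hp)]
  apply tsum_congr
  intro k
  rw [mask_apply]
  by_cases hk : k ∈ K
  · rw [Set.indicator_of_mem hk, Set.indicator_of_mem hk]
  · rw [Set.indicator_of_notMem hk, Set.indicator_of_notMem hk, norm_zero, Real.zero_rpow (q0 hp).ne']

lemma ind_summable (hp : p ≠ ∞) (K : Set I) (x : XX I Y p) :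
    Summable (K.indicator (fun k => ‖x k‖ ^ p.toReal)) := (hsn hp x).summable.indicator K

lemma mask_norm_le (hp : p ≠ ∞) (K : Set I) (x : XX I Y p) : ‖mask hp K x‖ ≤ ‖x‖ := by
  refine (Real.rpow_le_rpow_iff (norm_nonneg _) (norm_nonneg _) (q0 hp)).1 ?_
  rw [mask_norm_pow, ← (hsn hp x).tsum_eq]
  refine (ind_summable hp K x).tsum_le_tsum (fun k => ?_) (hsn hp x).summable
  exact Set.indicator_le_self' (fun _ _ => Real.rpow_nonneg (norm_nonneg _) _) k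

lemma mask_disj (hp : p ≠ ∞) (K K' : Set I) (h : Disjoint K K') (x : XX I Y p) :
    ‖mask hp (K ∪ K') x‖ ^ p.toReal = ‖mask hp K x‖ ^ p.toReal + ‖mask hp K' x‖ ^ p.toReal := by
  rw [mask_norm_pow, mask_norm_pow, mask_norm_pow, ← (ind_summable hp K x).tsum_add (ind_summable hp K' x)]
  apply tsum_congr
  intro k
  rw [Set.indicator_union_of_disjoint h]

lemma mask_univ (hp : p ≠ ∞) (x : XX I Y p) : mask hp Set.univ x = x := by
  apply lp.ext
  funext k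
  rw [mask_apply, Set.indicator_univ]

/-- the test function `φ(x_o) (‖x|K‖ / ‖x‖) ^ p` -/
noncomputable def fK (hp : p ≠ ∞) (φ : Y →L[ℝ] ℝ) (o : I) (K : Set I) (x : XX I Y p) : ℝ :=
  φ (x o) * (‖mask hp K x‖ ^ p.toReal / ‖x‖ ^ p.toReal)

lemma coord_le (hp : p ≠ ∞) (x : XX I Y p) (o : I) : ‖x o‖ ≤ ‖x‖ :=
  lp.norm_apply_le_norm (ENNReal.toReal_pos_iff.1 (q0 hp)).1.ne' x o

lemma fK_mem (hp : p ≠ ∞) (φ : Y →L[ℝ] ℝ) (o : I) (K : Set I) : fK hp φ o K ∈ Lip0 (XX I Y p) := by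
  have hq := q1 hp
  have hq0 := q0 hp
  apply lip_hom (fK hp φ o K) (‖φ‖ * (1 + p.toReal)) (by positivity)
  · intro c hc x
    unfold fK
    rw [map_smul, norm_smul, norm_smul, Real.norm_of_nonneg hc.le, Real.mul_rpow hc.le (norm_nonneg _),
      Real.mul_rpow hc.le (norm_nonneg _), mul_div_mul_left _ _ (Real.rpow_pos_of_pos hc _).ne']
    have : (c • x) o = c • x o := rfl
    rw [this, map_smul, smul_eq_mul]
    ring
  · intro u v hu hv
    unfold fK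
    rw [hu, hv, Real.one_rpow, div_one, div_one]
    have ha := mask_norm_le hp K u
    have hb := mask_norm_le hp K v
    rw [hu] at ha
    rw [hv] at hb
    have h1 := pow_lip hq (norm_nonneg _) (norm_nonneg _) ha hb
    have h2 : |‖mask hp K u‖ - ‖mask hp K v‖| ≤ ‖u - v‖ := by
      refine (abs_norm_sub_norm_le _ _).trans ?_
      rw [← map_sub]
      exact mask_norm_le hp K _
    have h3 : |φ (u o) - φ (v o)| ≤ ‖φ‖ * ‖u - v‖ := by
      rw [← map_sub, ← Real.norm_eq_abs]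
      refine (φ.le_opNorm _).trans (mul_le_mul_of_nonneg_left ?_ (norm_nonneg _))
      exact coord_le hp (u - v) o
    have h4 : |φ (v o)| ≤ ‖φ‖ := by
      rw [← Real.norm_eq_abs]
      refine (φ.le_opNorm _).trans ?_
      have := coord_le hp v o
      rw [hv] at this
      nlinarith [norm_nonneg φ]
    have h5 : ‖mask hp K u‖ ^ p.toReal ≤ 1 := Real.rpow_le_one (norm_nonneg _) ha hq0.le
    have h6 : 0 ≤ ‖mask hp K u‖ ^ p.toReal := Real.rpow_nonneg (norm_nonneg _) _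
    have e : φ (u o) * ‖mask hp K u‖ ^ p.toReal - φ (v o) * ‖mask hp K v‖ ^ p.toReal =
        (φ (u o) - φ (v o)) * ‖mask hp K u‖ ^ p.toReal +
          φ (v o) * (‖mask hp K u‖ ^ p.toReal - ‖mask hp K v‖ ^ p.toReal) := by ring
    rw [e]
    refine (abs_add_le _ _).trans ?_
    rw [abs_mul, abs_mul, abs_of_nonneg h6]
    have h7 : |φ (u o) - φ (v o)| * ‖mask hp K u‖ ^ p.toReal ≤ ‖φ‖ * ‖u - v‖ := by
      calc _ ≤ |φ (u o) - φ (v o)| * 1 := mul_le_mul_of_nonneg_left h5 (abs_nonneg _)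
        _ ≤ _ := by rw [mul_one]; exact h3
    have h8 : |φ (v o)| * |‖mask hp K u‖ ^ p.toReal - ‖mask hp K v‖ ^ p.toReal| ≤ ‖φ‖ * (p.toReal * ‖u - v‖) := by
      apply mul_le_mul h4 _ (abs_nonneg _) (norm_nonneg _)
      exact h1.trans (mul_le_mul_of_nonneg_left h2 hq0.le)
    linarith
  · intro u hu
    unfold fK
    rw [hu, Real.one_rpow, div_one, abs_mul]
    have ha := mask_norm_le hp K u
    rw [hu] at ha
    have h5 : ‖mask hp K u‖ ^ p.toReal ≤ 1 := Real.rpow_le_one (norm_nonneg _) ha hq0.le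
    have h6 : 0 ≤ ‖mask hp K u‖ ^ p.toReal := Real.rpow_nonneg (norm_nonneg _) _
    have h4 : |φ (u o)| ≤ ‖φ‖ := by
      rw [← Real.norm_eq_abs]
      refine (φ.le_opNorm _).trans ?_
      have := coord_le hp u o
      rw [hu] at this
      nlinarith [norm_nonneg φ]
    rw [abs_of_nonneg h6]
    calc |φ (u o)| * ‖mask hp K u‖ ^ p.toReal ≤ ‖φ‖ * 1 := mul_le_mul h4 h5 h6 (norm_nonneg _)
      _ ≤ ‖φ‖ * (1 + p.toReal) := mul_le_mul_of_nonneg_left (by linarith) (norm_nonneg _)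

/-- the test function `∑ φ(x_k) ‖x_k‖ ^ p / ‖x‖ ^ p` -/
noncomputable def FF (φ : Y →L[ℝ] ℝ) (x : XX I Y p) : ℝ :=
  (∑' k, φ (x k) * ‖x k‖ ^ p.toReal) / ‖x‖ ^ p.toReal

lemma FF_summable (hp : p ≠ ∞) (φ : Y →L[ℝ] ℝ) (x : XX I Y p) :
    Summable (fun k => φ (x k) * ‖x k‖ ^ p.toReal) := by
  refine Summable.of_norm_bounded ((hsn hp x).summable.mul_left (‖φ‖ * ‖x‖)) (fun k => ?_)
  rw [norm_mul, Real.norm_of_nonneg (Real.rpow_nonneg (norm_nonneg _) _)]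
  refine mul_le_mul_of_nonneg_right ?_ (Real.rpow_nonneg (norm_nonneg _) _)
  exact (φ.le_opNorm _).trans (mul_le_mul_of_nonneg_left (coord_le hp x k) (norm_nonneg _))

lemma term_lip {q : ℝ} (hq : 1 ≤ q) (φ : Y →L[ℝ] ℝ) (a b : Y) :
    |φ a * ‖a‖ ^ q - φ b * ‖b‖ ^ q| ≤ ‖φ‖ * ‖a - b‖ * (‖a‖ ^ q + q * (‖a‖ ^ q + ‖b‖ ^ q)) := by
  have ha : 0 ≤ ‖a‖ ^ q := Real.rpow_nonneg (norm_nonneg _) _
  have hb : 0 ≤ ‖b‖ ^ q := Real.rpow_nonneg (norm_nonneg _) _
  have e : φ a * ‖a‖ ^ q - φ b * ‖b‖ ^ q = φ (a - b) * ‖a‖ ^ q + φ b * (‖a‖ ^ q - ‖b‖ ^ q) := by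
    rw [map_sub]; ring
  rw [e]
  refine (abs_add_le _ _).trans ?_
  rw [abs_mul, abs_mul, abs_of_nonneg ha]
  have h1 : |φ (a - b)| ≤ ‖φ‖ * ‖a - b‖ := φ.le_opNorm _
  have h2 : |φ b| ≤ ‖φ‖ * ‖b‖ := φ.le_opNorm _
  have h3 := pow_lip2 hq (norm_nonneg a) (norm_nonneg b)
  have h4 := abs_norm_sub_norm_le a b
  have h5 : |φ (a - b)| * ‖a‖ ^ q ≤ ‖φ‖ * ‖a - b‖ * ‖a‖ ^ q := mul_le_mul_of_nonneg_right h1 ha
  have h6 : |φ b| * |‖a‖ ^ q - ‖b‖ ^ q| ≤ ‖φ‖ * (q * ‖a - b‖ * (‖a‖ ^ q + ‖b‖ ^ q)) := by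
    calc |φ b| * |‖a‖ ^ q - ‖b‖ ^ q| ≤ ‖φ‖ * ‖b‖ * |‖a‖ ^ q - ‖b‖ ^ q| :=
          mul_le_mul_of_nonneg_right h2 (abs_nonneg _)
      _ = ‖φ‖ * (‖b‖ * |‖a‖ ^ q - ‖b‖ ^ q|) := by ring
      _ ≤ ‖φ‖ * (q * |‖a‖ - ‖b‖| * (‖a‖ ^ q + ‖b‖ ^ q)) := mul_le_mul_of_nonneg_left h3 (norm_nonneg _)
      _ ≤ _ := by
        apply mul_le_mul_of_nonneg_left _ (norm_nonneg _)
        apply mul_le_mul_of_nonneg_right _ (by positivity)
        exact mul_le_mul_of_nonneg_left h4 (by linarith)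
  linarith

lemma FF_mem (hp : p ≠ ∞) (φ : Y →L[ℝ] ℝ) : FF φ ∈ Lip0 (XX I Y p) := by
  have hq := q1 hp
  have hq0 := q0 hp
  have hsum1 : ∀ u : XX I Y p, ‖u‖ = 1 → HasSum (fun k => ‖u k‖ ^ p.toReal) 1 := fun u hu => by
    have := hsn hp u
    rwa [hu, Real.one_rpow] at this
  apply lip_hom (FF φ) (‖φ‖ * (1 + 2 * p.toReal)) (by positivity)
  · intro c hc x
    unfold FF
    rw [norm_smul, Real.norm_of_nonneg hc.le, Real.mul_rpow hc.le (norm_nonneg _)]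
    have e : ∀ k, φ ((c • x) k) * ‖(c • x) k‖ ^ p.toReal = c * c ^ p.toReal * (φ (x k) * ‖x k‖ ^ p.toReal) := by
      intro k
      have : (c • x) k = c • x k := rfl
      rw [this, map_smul, norm_smul, Real.norm_of_nonneg hc.le, Real.mul_rpow hc.le (norm_nonneg _), smul_eq_mul]
      ring
    simp_rw [e]
    rw [tsum_mul_left]
    have hcq : c ^ p.toReal ≠ 0 := (Real.rpow_pos_of_pos hc _).ne'
    rw [mul_comm c, mul_assoc, mul_div_mul_left _ _ hcq, mul_div_assoc]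
  · intro u v hu hv
    unfold FF
    rw [hu, hv, Real.one_rpow, div_one, div_one, ← (FF_summable hp φ u).tsum_sub (FF_summable hp φ v),
      ← Real.norm_eq_abs]
    have hS : HasSum (fun k => ‖φ‖ * ‖u - v‖ * (‖u k‖ ^ p.toReal + p.toReal * (‖u k‖ ^ p.toReal + ‖v k‖ ^ p.toReal)))
        (‖φ‖ * ‖u - v‖ * (1 + p.toReal * (1 + 1))) :=
      ((hsum1 u hu).add (((hsum1 u hu).add (hsum1 v hv)).mul_left _)).mul_left _
    refine (tsum_of_norm_bounded hS (fun k => ?_)).trans (le_of_eq (by ring))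
    rw [Real.norm_eq_abs]
    refine (term_lip hq φ (u k) (v k)).trans ?_
    apply mul_le_mul_of_nonneg_right
    · exact mul_le_mul_of_nonneg_left (coord_le hp (u - v) k) (norm_nonneg _)
    · have h1 : 0 ≤ ‖u k‖ ^ p.toReal := Real.rpow_nonneg (norm_nonneg _) _
      have h2 : 0 ≤ ‖v k‖ ^ p.toReal := Real.rpow_nonneg (norm_nonneg _) _
      positivity
  · intro u hu
    unfold FF
    rw [hu, Real.one_rpow, div_one, ← Real.norm_eq_abs]
    have hS : HasSum (fun k => ‖φ‖ * ‖u k‖ ^ p.toReal) (‖φ‖ * 1) := (hsum1 u hu).mul_left _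
    refine (tsum_of_norm_bounded hS (fun k => ?_)).trans ?_
    · rw [norm_mul, Real.norm_of_nonneg (Real.rpow_nonneg (norm_nonneg _) _)]
      refine mul_le_mul_of_nonneg_right ?_ (Real.rpow_nonneg (norm_nonneg _) _)
      refine (φ.le_opNorm _).trans ?_
      have := coord_le hp u k
      rw [hu] at this
      nlinarith [norm_nonneg φ]
    · exact mul_le_mul_of_nonneg_left (by linarith) (norm_nonneg _)

end Pool.Agent.R514.SP
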