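import Mathlib
import Pool.Agent.R514.SP.LpPart

set_option autoImplicit false
set_option linter.unusedSectionVars false

open scoped ENNReal NNReal

namespace Pool.Agent.R514.SP

variable {I : Type} {Y : Type} [NormedAddCommGroup Y] [NormedSpace ℝ Y] {p : ℝ≥0∞} [Fact (1 ≤ p)]

lemma norm_eq_of_pow (hp : p ≠ ∞) {x y : XX I Y p} (h : ‖x‖ ^ p.toReal = ‖y‖ ^ p.toReal) : ‖x‖ = ‖y‖ :=
  (Real.rpow_left_inj (norm_nonneg _) (norm_nonneg _) (q0 hp).ne').1 h

lemma mem_perm (hp : p ≠ ∞) (σ : Equiv.Perm I) (x : XX I Y p) : Memℓp (fun k => x (σ k)) p := by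
  apply memℓp_gen
  have h := (Equiv.summable_iff σ (f := fun k => ‖x k‖ ^ p.toReal)).2 (hsn hp x).summable
  exact h

/-- the isometry `(x_k) ↦ (x_{σ k})` -/
noncomputable def sp (hp : p ≠ ∞) (σ : Equiv.Perm I) : XX I Y p ≃ₗᵢ[ℝ] XX I Y p where
  toFun x := ⟨fun k => x (σ k), mem_perm hp σ x⟩
  map_add' _ _ := rfl
  map_smul' _ _ := rfl
  invFun x := ⟨fun k => x (σ.symm k), mem_perm hp σ.symm x⟩
  left_inv x := by
    apply lp.ext
    funext k
    show x (σ (σ.symm k)) = x k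
    rw [Equiv.apply_symm_apply]
  right_inv x := by
    apply lp.ext
    funext k
    show x (σ.symm (σ k)) = x k
    rw [Equiv.symm_apply_apply]
  norm_map' x := by
    apply norm_eq_of_pow hp
    rw [lp.norm_rpow_eq_tsum (q0 hp), lp.norm_rpow_eq_tsum (q0 hp)]
    exact Equiv.tsum_eq σ (fun k => ‖x k‖ ^ p.toReal)

lemma sp_apply (hp : p ≠ ∞) (σ : Equiv.Perm I) (x : XX I Y p) (k : I) : sp hp σ x k = x (σ k) := rfl

open Classical in
/-- the isometry which changes the sign of the `k`-th coordinate -/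
noncomputable def fl (hp : p ≠ ∞) (k : I) : XX I Y p ≃ₗᵢ[ℝ] XX I Y p where
  toFun x := ⟨fun j => if j = k then -x j else x j, by
    refine memℓp_gen ?_
    refine (hsn hp x).summable.congr (fun j => ?_)
    split_ifs
    · rw [norm_neg]
    · rfl⟩
  map_add' x y := by
    apply lp.ext
    funext j
    show (if j = k then -(x j + y j) else x j + y j) =
      (if j = k then -x j else x j) + (if j = k then -y j else y j)
    split_ifs
    · rw [neg_add]
    · rfl
  map_smul' c x := by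
    apply lp.ext
    funext j
    show (if j = k then -(c • x j) else c • x j) = c • (if j = k then -x j else x j)
    split_ifs
    · rw [smul_neg]
    · rfl
  invFun x := ⟨fun j => if j = k then -x j else x j, by
    refine memℓp_gen ?_
    refine (hsn hp x).summable.congr (fun j => ?_)
    split_ifs
    · rw [norm_neg]
    · rfl⟩
  left_inv x := by
    apply lp.ext
    funext j
    show (if j = k then -(if j = k then -x j else x j) else (if j = k then -x j else x j)) = x j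
    split_ifs
    · rw [neg_neg]
    · rfl
  right_inv x := by
    apply lp.ext
    funext j
    show (if j = k then -(if j = k then -x j else x j) else (if j = k then -x j else x j)) = x j
    split_ifs
    · rw [neg_neg]
    · rfl
  norm_map' x := by
    apply norm_eq_of_pow hp
    rw [lp.norm_rpow_eq_tsum (q0 hp), lp.norm_rpow_eq_tsum (q0 hp)]
    apply tsum_congr
    intro j
    show ‖(if j = k then -x j else x j)‖ ^ p.toReal = ‖x j‖ ^ p.toReal
    split_ifs
    · rw [norm_neg]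
    · rfl

open Classical in
lemma fl_apply (hp : p ≠ ∞) (k : I) (x : XX I Y p) (j : I) : fl hp k x j = if j = k then -x j else x j := rfl

/-- the coordinate functional -/
noncomputable def co (hp : p ≠ ∞) (φ : Y →L[ℝ] ℝ) (o : I) : XX I Y p →L[ℝ] ℝ :=
  LinearMap.mkContinuous
    { toFun := fun x => φ (x o)
      map_add' := fun x y => by
        show φ (x o + y o) = _
        rw [map_add]
      map_smul' := fun c x => by
        show φ (c • x o) = _
        rw [map_smul]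
        rfl } ‖φ‖ (fun x => (φ.le_opNorm _).trans (mul_le_mul_of_nonneg_left (coord_le hp x o) (norm_nonneg _)))

lemma co_apply (hp : p ≠ ∞) (φ : Y →L[ℝ] ℝ) (o : I) (x : XX I Y p) : co hp φ o x = φ (x o) := rfl

lemma clm_mem {X : Type*} [NormedAddCommGroup X] [NormedSpace ℝ X] (φ : X →L[ℝ] ℝ) : ⇑φ ∈ Lip0 X :=
  ⟨map_zero φ, _, φ.lipschitz⟩

lemma fK_union (hp : p ≠ ∞) (φ : Y →L[ℝ] ℝ) (o : I) (K K' : Set I) (h : Disjoint K K') (x : XX I Y p) :
    fK hp φ o (K ∪ K') x = fK hp φ o K x + fK hp φ o K' x := by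
  unfold fK
  rw [mask_disj hp K K' h]
  ring

lemma fK_univ (hp : p ≠ ∞) (φ : Y →L[ℝ] ℝ) (o : I) (x : XX I Y p) :
    fK hp φ o Set.univ x = co hp φ o x := by
  unfold fK
  rw [mask_univ, co_apply]
  by_cases hx : x = 0
  · rw [hx]
    simp
  · rw [div_self, mul_one]
    exact (Real.rpow_pos_of_pos (norm_pos_iff.2 hx) _).ne'

lemma fK_perm (hp : p ≠ ∞) (φ : Y →L[ℝ] ℝ) (o : I) (K : Set I) (σ : Equiv.Perm I) (x : XX I Y p) :
    fK hp φ (σ o) (σ '' K) x = fK hp φ o K (sp hp σ x) := by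
  unfold fK
  rw [LinearIsometryEquiv.norm_map, sp_apply, mask_norm_pow, mask_norm_pow]
  congr 2
  rw [← Equiv.tsum_eq σ]
  apply tsum_congr
  intro k
  by_cases hk : k ∈ K
  · rw [Set.indicator_of_mem hk, Set.indicator_of_mem (Set.mem_image_of_mem _ hk)]
    rfl
  · rw [Set.indicator_of_notMem hk, Set.indicator_of_notMem]
    rintro ⟨j, hj, hjk⟩
    exact hk (σ.injective hjk ▸ hj)

open Classical in
/-- the vector with the only nonzero coordinate `y` at `k` -/
noncomputable def E (p : ℝ≥0∞) (y : Y) (k : I) : XX I Y p := lp.single p k y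

lemma E_self (y : Y) (k : I) : (E p y k : XX I Y p) k = y := by
  classical
  exact lp.single_apply_self (E := fun _ : I => Y) p k y

lemma E_ne (y : Y) (k j : I) (h : j ≠ k) : (E p y k : XX I Y p) j = 0 := by
  classical
  exact lp.single_apply_ne (E := fun _ : I => Y) p k y h

lemma sp_E (hp : p ≠ ∞) (σ : Equiv.Perm I) (y : Y) (j : I) : sp hp σ (E p y (σ j)) = E p y j := by
  apply lp.ext
  funext k
  rw [sp_apply]
  by_cases h : k = j
  · rw [h, E_self, E_self]
  · rw [E_ne _ _ _ h, E_ne]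
    exact fun h' => h (σ.injective h')

lemma fl_E (hp : p ≠ ∞) (y : Y) (k : I) : fl hp k (E p y k) = -E p y k := by
  apply lp.ext
  funext j
  rw [fl_apply]
  show _ = -(E p y k : XX I Y p) j
  by_cases h : j = k
  · rw [if_pos h]
  · rw [if_neg h, E_ne _ _ _ h, neg_zero]

open Classical in
lemma FF_sub (hp : p ≠ ∞) (φ : Y →L[ℝ] ℝ) (k : I) (x : XX I Y p) :
    FF φ x - fK hp φ k {k} x = (∑' j, if j = k then 0 else φ (x j) * ‖x j‖ ^ p.toReal) / ‖x‖ ^ p.toReal := by
  unfold FF fK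
  have h1 : ‖mask hp {k} x‖ ^ p.toReal = ‖x k‖ ^ p.toReal := by
    rw [mask_norm_pow, tsum_eq_single k]
    · rw [Set.indicator_of_mem (Set.mem_singleton k)]
    · intro j hj
      rw [Set.indicator_of_notMem]
      exact hj
  rw [h1, (FF_summable hp φ x).tsum_eq_add_tsum_ite k]
  ring

lemma FF_flip (hp : p ≠ ∞) (φ : Y →L[ℝ] ℝ) (k : I) (x : XX I Y p) :
    FF φ (fl hp k x) - fK hp φ k {k} (fl hp k x) = FF φ x - fK hp φ k {k} x := by
  classical
  rw [FF_sub, FF_sub, LinearIsometryEquiv.norm_map]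
  congr 1
  apply tsum_congr
  intro j
  split_ifs with h
  · rfl
  · rw [fl_apply, if_neg h]

lemma growth {q c C : ℝ} (hq : 1 < q) (hc : 0 < c) (h : ∀ n : ℕ, 0 < n → n * c ≤ C * (n : ℝ) ^ (1 / q)) : False := by
  have hy : 0 < 1 - 1 / q := by
    rw [sub_pos, div_lt_one (by linarith)]
    exact hq
  have ht := (tendsto_rpow_atTop hy).comp (tendsto_natCast_atTop_atTop (R := ℝ))
  obtain ⟨n, hn, hn0⟩ := ((ht.eventually_gt_atTop (C / c)).and (Filter.eventually_gt_atTop 0)).exists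
  have h1 := h n hn0
  have hnr : (0 : ℝ) < n := by exact_mod_cast hn0
  have h2 : (n : ℝ) = (n : ℝ) ^ (1 - 1 / q) * (n : ℝ) ^ (1 / q) := by
    rw [← Real.rpow_add hnr]
    simp
  have h3 : 0 < (n : ℝ) ^ (1 / q) := Real.rpow_pos_of_pos hnr _
  have h4 : (n : ℝ) ^ (1 - 1 / q) * c * (n : ℝ) ^ (1 / q) ≤ C * (n : ℝ) ^ (1 / q) := by
    calc (n : ℝ) ^ (1 - 1 / q) * c * (n : ℝ) ^ (1 / q) = (n : ℝ) ^ (1 - 1 / q) * (n : ℝ) ^ (1 / q) * c := by ring
      _ = n * c := by rw [← h2]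
      _ ≤ _ := h1
  have h5 := le_of_mul_le_mul_right h4 h3
  have h6 : C / c < (n : ℝ) ^ (1 - 1 / q) := hn
  rw [div_lt_iff₀ hc] at h6
  linarith

/-- **Core.** -/
theorem core (hp : p ≠ ∞) (hp1 : 1 < p.toReal) (e : Option (ℕ ⊕ (ℕ ⊕ ℕ)) ≃ I) [Nontrivial Y]
    (P : Lip0 (XX I Y p) →ₗ[ℝ] (XX I Y p →L[ℝ] ℝ))
    (hP : ∀ (ψ : XX I Y p →L[ℝ] ℝ) (h : ⇑ψ ∈ Lip0 (XX I Y p)), P ⟨ψ, h⟩ = ψ)
    (hG : ∀ (g : XX I Y p ≃ₗᵢ[ℝ] XX I Y p) (f f' : Lip0 (XX I Y p)), (∀ x, f'.1 x = f.1 (g x)) →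
      ∀ x, P f' x = P f (g x)) : False := by
  classical
  obtain ⟨y, hy⟩ := exists_ne (0 : Y)
  obtain ⟨φ, hφ1, hφ⟩ := exists_dual_vector ℝ y (norm_ne_zero_iff.2 hy)
  have hφ' : φ y = ‖y‖ := by simpa using hφ
  set M : I → Set I → I → ℝ := fun o K j => P ⟨fK hp φ o K, fK_mem hp φ o K⟩ (E p y j) with hM
  have Munion : ∀ o K K' j, Disjoint K K' → M o (K ∪ K') j = M o K j + M o K' j := by
    intro o K K' j h
    have e1 : (⟨fK hp φ o (K ∪ K'), fK_mem hp φ o (K ∪ K')⟩ : Lip0 (XX I Y p)) =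
        ⟨fK hp φ o K, fK_mem hp φ o K⟩ + ⟨fK hp φ o K', fK_mem hp φ o K'⟩ := by
      apply Subtype.ext
      funext x
      exact fK_union hp φ o K K' h x
    simp only [hM]
    rw [e1, map_add]
    rfl
  have Mperm : ∀ (σ : Equiv.Perm I) o K j, M (σ o) (σ '' K) (σ j) = M o K j := by
    intro σ o K j
    simp only [hM]
    rw [hG (sp hp σ) ⟨fK hp φ o K, fK_mem hp φ o K⟩ ⟨fK hp φ (σ o) (σ '' K), fK_mem hp φ (σ o) (σ '' K)⟩
      (fun x => fK_perm hp φ o K σ x), sp_E]
  have Muniv : ∀ o, M o Set.univ o = ‖y‖ := by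
    intro o
    simp only [hM]
    have e1 : (⟨fK hp φ o Set.univ, fK_mem hp φ o Set.univ⟩ : Lip0 (XX I Y p)) =
        ⟨co hp φ o, clm_mem _⟩ := by
      apply Subtype.ext
      funext x
      exact fK_univ hp φ o x
    rw [e1, hP, co_apply, E_self, hφ']
  set o := e none with ho
  set m : Set (ℕ ⊕ (ℕ ⊕ ℕ)) → ℝ := fun S => M o ((fun w => e (some w)) '' S) o with hm
  have mperm : ∀ (τ : Equiv.Perm (ℕ ⊕ (ℕ ⊕ ℕ))) S, m (τ '' S) = m S := by
    intro τ S
    set σ : Equiv.Perm I := e.symm.trans ((Equiv.optionCongr τ).trans e) with hσ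
    have h1 : σ o = o := by simp [hσ, ho]
    have h2 : σ '' ((fun w => e (some w)) '' S) = (fun w => e (some w)) '' (τ '' S) := by
      rw [Set.image_image, Set.image_image]
      apply Set.image_congr
      intro w _
      simp [hσ]
    have h3 := Mperm σ o ((fun w => e (some w)) '' S) o
    rw [h1, h2] at h3
    exact h3
  have munion : ∀ S S', Disjoint S S' → m (S ∪ S') = m S + m S' := by
    intro S S' h
    simp only [hm]
    rw [Set.image_union]
    apply Munion
    refine (Set.disjoint_image_iff ?_).2 h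
    intro a b hab
    simpa using hab
  set S0 : Set (ℕ ⊕ (ℕ ⊕ ℕ)) := Set.range Sum.inl with hS0
  set S1 : Set (ℕ ⊕ (ℕ ⊕ ℕ)) := Set.range (fun n => Sum.inr (Sum.inl n)) with hS1
  set S2 : Set (ℕ ⊕ (ℕ ⊕ ℕ)) := Set.range (fun n => Sum.inr (Sum.inr n)) with hS2
  have d01 : Disjoint S0 S1 := by
    rw [Set.disjoint_left]
    rintro _ ⟨n, rfl⟩ ⟨k, hk⟩
    simp at hk
  have d12 : Disjoint S1 S2 := by
    rw [Set.disjoint_left]
    rintro _ ⟨n, rfl⟩ ⟨k, hk⟩
    simp at hk
  have d012 : Disjoint (S0 ∪ S1) S2 := by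
    rw [Set.disjoint_left]
    rintro _ (⟨n, rfl⟩ | ⟨n, rfl⟩) ⟨k, hk⟩ <;> simp at hk
  have hun : (S0 ∪ S1) ∪ S2 = Set.univ := by
    ext w
    simp only [hS0, hS1, hS2, Set.mem_union, Set.mem_range, Set.mem_univ, iff_true]
    rcases w with n | n | n
    · exact Or.inl (Or.inl ⟨n, rfl⟩)
    · exact Or.inl (Or.inr ⟨n, rfl⟩)
    · exact Or.inr ⟨n, rfl⟩
  -- the three permutations
  have e01 : m S1 = m S0 := by
    rw [← mperm ((Equiv.sumAssoc ℕ ℕ ℕ).symm.trans (((Equiv.sumComm ℕ ℕ).sumCongr (Equiv.refl ℕ)).trans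
      (Equiv.sumAssoc ℕ ℕ ℕ))) S0]
    congr 1
    ext w
    simp only [hS0, hS1, Set.mem_range, Set.mem_image, exists_exists_eq_and]
    rfl
  have e12 : m S2 = m S1 := by
    rw [← mperm ((Equiv.refl ℕ).sumCongr (Equiv.sumComm ℕ ℕ)) S1]
    congr 1
    ext w
    simp only [hS2, hS1, Set.mem_range, Set.mem_image, exists_exists_eq_and]
    rfl
  have e00 : m (S0 ∪ S1) = m S0 := by
    rw [← mperm ((Equiv.sumCongr Equiv.natSumNatEquivNat.symm Equiv.natSumNatEquivNat).trans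
      (Equiv.sumAssoc ℕ ℕ ℕ)) S0]
    congr 1
    ext w
    simp only [hS0, hS1, Set.mem_union, Set.mem_range, Set.mem_image, exists_exists_eq_and]
    constructor
    · rintro (⟨n, rfl⟩ | ⟨n, rfl⟩)
      · refine ⟨Equiv.natSumNatEquivNat (Sum.inl n), ?_⟩
        simp
      · refine ⟨Equiv.natSumNatEquivNat (Sum.inr n), ?_⟩
        simp
    · rintro ⟨n, rfl⟩
      rcases h : Equiv.natSumNatEquivNat.symm n with a | a
      · exact Or.inl ⟨a, by simp [h]⟩
      · exact Or.inr ⟨a, by simp [h]⟩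
  have m0 : m S0 = 0 := by
    have h1 := munion S0 S1 d01
    rw [e00, e01] at h1
    linarith
  have muniv : m Set.univ = 0 := by
    rw [← hun, munion _ _ d012, e00, e12, e01, m0, add_zero]
  have Mo : M o {o} o = ‖y‖ := by
    have h1 : ({o} : Set I) ∪ (fun w => e (some w)) '' Set.univ = Set.univ := by
      ext k
      simp only [Set.mem_union, Set.mem_singleton_iff, Set.mem_image, Set.mem_univ, true_and, iff_true]
      rcases h : e.symm k with _ | w
      · left
        rw [ho, ← h, Equiv.apply_symm_apply]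
      · right
        exact ⟨w, by rw [← h, Equiv.apply_symm_apply]⟩
    have h2 := Munion o {o} ((fun w => e (some w)) '' Set.univ) o (by
      rw [Set.disjoint_singleton_left]
      rintro ⟨w, -, hw⟩
      rw [ho] at hw
      simpa using e.injective hw)
    rw [h1, Muniv] at h2
    have h3 : M o ((fun w => e (some w)) '' Set.univ) o = 0 := muniv
    rw [h3] at h2
    linarith
  have Mk : ∀ k, M k {k} k = ‖y‖ := by
    intro k
    have h := Mperm (Equiv.swap o k) o {o} o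
    rw [Set.image_singleton, Equiv.swap_apply_left, Mo] at h
    exact h
  -- the function `FF`
  set F : Lip0 (XX I Y p) := ⟨FF φ, FF_mem hp φ⟩ with hF
  have PF : ∀ k, P F (E p y k) = ‖y‖ := by
    intro k
    set f0 : Lip0 (XX I Y p) := ⟨fK hp φ k {k}, fK_mem hp φ k {k}⟩ with hf0
    have h1 : P (F - f0) (E p y k) = 0 := by
      have h2 := hG (fl hp k) (F - f0) (F - f0) (fun x => (FF_flip hp φ k x).symm) (E p y k)
      rw [fl_E, map_neg] at h2
      linarith
    have h3 : P F = P (F - f0) + P f0 := by rw [← map_add, sub_add_cancel]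
    rw [h3, add_apply, h1, zero_add]
    exact Mk k
  have hinf : Infinite I := Infinite.of_injective (fun n : ℕ => e (some (Sum.inl n))) (by
    intro a b hab
    simpa using e.injective hab)
  refine growth (q := p.toReal) (c := ‖y‖) (C := ‖P F‖ * ‖y‖) hp1 (norm_pos_iff.2 hy) (fun n _ => ?_)
  obtain ⟨s, hs⟩ := Infinite.exists_subset_card_eq I n
  have h1 : P F (∑ k ∈ s, E p y k) = n * ‖y‖ := by
    rw [map_sum, Finset.sum_congr rfl (fun k _ => PF k), Finset.sum_const, hs, nsmul_eq_mul]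
  have h2 : ‖∑ k ∈ s, (E p y k : XX I Y p)‖ = (n : ℝ) ^ (1 / p.toReal) * ‖y‖ := by
    have h3 : ‖∑ k ∈ s, (E p y k : XX I Y p)‖ ^ p.toReal = n * ‖y‖ ^ p.toReal := by
      have h3 := lp.norm_sum_single (q0 hp) (fun _ : I => y) s
      rw [Finset.sum_const, hs, nsmul_eq_mul] at h3
      exact h3
    have h4 : (‖∑ k ∈ s, (E p y k : XX I Y p)‖) ^ p.toReal = ((n : ℝ) ^ (1 / p.toReal) * ‖y‖) ^ p.toReal := by
      rw [Real.mul_rpow (by positivity) (norm_nonneg _), ← Real.rpow_mul (by positivity),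
        one_div_mul_cancel (q0 hp).ne', Real.rpow_one]
      exact h3
    exact (Real.rpow_left_inj (norm_nonneg _) (by positivity) (q0 hp).ne').1 h4
  have h5 := (P F).le_opNorm (∑ k ∈ s, E p y k)
  rw [h1, h2] at h5
  have h6 : (n : ℝ) * ‖y‖ ≤ ‖(n : ℝ) * ‖y‖‖ := Real.le_norm_self _
  calc (n : ℝ) * ‖y‖ ≤ _ := h6
    _ ≤ _ := h5
    _ = _ := by ring

end Pool.Agent.R514.SP
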